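import Pool.Agent.Helper64.M7.Free
import Pool.Agent.Helper21.RG.Frame
import Pool.Agent.Helper49.RG.Lemma2

/-!
A cut through an inner spoke gives a free side with seven vertices. (Problem MP_d067c8_co.)
-/

namespace Pool.Agent.Helper19.RG

open Finset Pool.Agent.Helper19.CF

variable {N : ℕ} [NeZero N] {f : Equiv.Perm (ZMod N)}

/-- Every cut through an inner spoke of `S` gives a free frame. -/
theorem exists_free (hb : Bad f)
    (h1 : ∀ X Y : Finset (ZMod N ⊕ ZMod N), Side f X → X.card = 9 → Side f Y → Y.card = 7 → ¬ Y ⊆ X)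
    {S : Finset (ZMod N ⊕ ZMod N)} (hS : Min9 f S) {Y : Finset (ZMod N ⊕ ZMod N)} (hY : Side f Y)
    {x : ZMod N} (hx : Inner f S x)
    (hc : ¬ ((.inl x : ZMod N ⊕ ZMod N) ∈ Y ↔ (.inr (f x) : ZMod N ⊕ ZMod N) ∈ Y)) :
    ∃ (f' : Equiv.Perm (ZMod N)) (s : Sym f f') (c d : ZMod N), Free f' (im s.φ S) c d ∧
      (im s.φ Y = m7 c d ∨ im s.φ Yᶜ = m7 c d) ∧
      (s.φ (.inl x) = .inl c ∨ s.φ (.inr (f x)) = .inl c) :=
  exists_free_of hb (fun hY h7 => exists_frame hb hY h7)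
    (Pool.Agent.Helper49.RG.lemma2 hb h1 hS hY hx hc) hY hx hc

end Pool.Agent.Helper19.RG
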