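import Pool.Agent.Helper19.RG.Sym

/-!
Five-cycles in a side with seven vertices; free sides. (Problem MP_d067c8_co.)
-/

namespace Pool.Agent.Helper19.RG

open Finset Pool.Agent.Helper19.CF

section five

variable {N : ℕ} [NeZero N] {f : Equiv.Perm (ZMod N)} {c d : ZMod N}

omit [NeZero N] in
theorem small_cast_ne (hN : 9 ≤ N) {k : ℕ} (h1 : 1 ≤ k) (h2 : k < 9) : ((k : ℕ) : ZMod N) ≠ 0 := by
  intro h
  rw [ZMod.natCast_eq_zero_iff] at h
  have := Nat.le_of_dvd (by omega) h
  omega

omit [NeZero N] in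
theorem shift_ne (hN : 9 ≤ N) {x y : ZMod N} {k : ℕ} (h1 : 1 ≤ k) (h2 : k < 9)
    (h : x = y + k) : x ≠ y := by
  intro h3
  rw [h3] at h
  exact small_cast_ne hN h1 h2 (by linear_combination -h)

/-- No vertex of a five-vertex set with five boundary edges has two neighbours outside. -/
theorem five_two_out (hb : Bad f) {P : Finset (ZMod N ⊕ ZMod N)}
    (h5 : P.card = 5) (hc5 : cutSize (permGraph N f) (P : Set (ZMod N ⊕ ZMod N)) = 5)
    {v u w : ZMod N ⊕ ZMod N} (hv : v ∈ P) (hu : u ∉ P) (hw : w ∉ P) (huw : u ≠ w)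
    (hvu : (permGraph N f).Adj v u) (hvw : (permGraph N f).Adj v w) : False := by
  classical
  have hN := hb.hN
  have hreg : ∀ v, (permGraph N f).degree v = 3 := permGraph_regular (by omega)
  have h4 := dd_erase (permGraph N f) hreg hv hu hw huw hvu hvw
  have h6 : dd (permGraph N f) P = 5 := by rw [← cutSize_coe]; exact hc5
  have h8 : (P.erase v).card = 4 := by rw [card_erase_of_mem hv, h5]
  have h9 : (P.erase v)ᶜ.card = 2 * N - 4 := by
    rw [card_compl, h8, Fintype.card_sum, ZMod.card]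
    omega
  have h10 := small_side (permGraph N f) hreg hb.cyc (P.erase v) (by omega)
  omega

/-- The star spoke leaves the set. -/
theorem M7.star_notMem (hN : 9 ≤ N) (h : M7 f c d) :
    (.inr (f c) : ZMod N ⊕ ZMod N) ∉ m7 c d := by
  rw [mem_m7_r hN]
  rintro (h1 | h1 | h1)
  · rw [← h.b] at h1
    exact shift_ne hN (k := 1) (by omega) (by omega) (by push_cast; ring) (f.injective h1)
  · rw [← h.g] at h1
    exact shift_ne hN (k := 1) (by omega) (by omega) (by push_cast; ring) (f.injective h1).symm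
  · rw [← h.a] at h1
    exact shift_ne hN (k := 2) (by omega) (by omega) (by push_cast; ring) (f.injective h1)

/-- A 5-cycle of the set with the inner end of the star is the set without the spoke `a`. -/
theorem M7.five (hb : Bad f) (h : M7 f c d) {P : Finset (ZMod N ⊕ ZMod N)} (hP : P ⊆ m7 c d)
    (h5 : P.card = 5) (hc5 : cutSize (permGraph N f) (P : Set (ZMod N ⊕ ZMod N)) = 5)
    (hc : (.inl c : ZMod N ⊕ ZMod N) ∈ P) :
    (.inl (c - 1) : ZMod N ⊕ ZMod N) ∈ P ∧ (.inr d : ZMod N ⊕ ZMod N) ∈ P ∧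
      (.inl (c + 1) : ZMod N ⊕ ZMod N) ∈ P ∧ (.inr (d + 1) : ZMod N ⊕ ZMod N) ∈ P := by
  have hN := hb.hN
  have out := fun {v u w : ZMod N ⊕ ZMod N} => five_two_out hb h5 hc5 (v := v) (u := u) (w := w)
  have hs : (.inr (f c) : ZMod N ⊕ ZMod N) ∉ P := fun h1 => h.star_notMem hN (hP h1)
  have m1 : (.inl (c - 1) : ZMod N ⊕ ZMod N) ∈ P := by
    by_contra h1
    exact out hc hs h1 Sum.inr_ne_inl (adjS c) (adjA' hb c)
  have m2 : (.inl (c + 1) : ZMod N ⊕ ZMod N) ∈ P := by
    by_contra h1
    exact out hc hs h1 Sum.inr_ne_inl (adjS c) (adjA hb c)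
  have o1 : (.inl (c + 1 + 1) : ZMod N ⊕ ZMod N) ∉ P := by
    intro h1
    have h2 := hP h1
    rw [mem_m7_l hN] at h2
    rcases h2 with h2 | h2 | h2 | h2
    · exact shift_ne hN (k := 4) (by omega) (by omega) (by push_cast; ring) h2
    · exact shift_ne hN (k := 3) (by omega) (by omega) (by push_cast; ring) h2
    · exact shift_ne hN (k := 2) (by omega) (by omega) (by push_cast; ring) h2
    · exact shift_ne hN (k := 1) (by omega) (by omega) (by push_cast; ring) h2
  have m3 : (.inr (d + 1) : ZMod N ⊕ ZMod N) ∈ P := by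
    by_contra h1
    have h2 := adjS (f := f) (c + 1)
    rw [h.g] at h2
    exact out m2 h1 o1 Sum.inr_ne_inl h2 (adjA hb _)
  refine ⟨m1, ?_, m2, m3⟩
  by_contra h1
  have m4 : (.inl (c - 1 - 1) : ZMod N ⊕ ZMod N) ∈ P := by
    by_contra h3
    have h2 := adjS (f := f) (c - 1)
    rw [h.b] at h2
    exact out m1 h1 h3 Sum.inr_ne_inl h2 (adjA' hb _)
  have e2 : c - 1 - 1 = c - 2 := by ring
  rw [e2] at m4
  have o2 : (.inl (c - 2 - 1) : ZMod N ⊕ ZMod N) ∉ P := by
    intro h1
    have h2 := hP h1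
    rw [mem_m7_l hN] at h2
    rcases h2 with h2 | h2 | h2 | h2
    · exact shift_ne hN (k := 1) (by omega) (by omega) (by push_cast; ring) h2.symm
    · exact shift_ne hN (k := 2) (by omega) (by omega) (by push_cast; ring) h2.symm
    · exact shift_ne hN (k := 3) (by omega) (by omega) (by push_cast; ring) h2.symm
    · exact shift_ne hN (k := 4) (by omega) (by omega) (by push_cast; ring) h2.symm
  have m5 : (.inr (d + 2) : ZMod N ⊕ ZMod N) ∈ P := by
    by_contra h3
    have h2 := adjS (f := f) (c - 2)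
    rw [h.a] at h2
    exact out m4 h3 o2 Sum.inr_ne_inl h2 (adjA' hb _)
  have h6 : ({.inl (c - 2), .inl (c - 1), .inl c, .inl (c + 1), .inr (d + 1), .inr (d + 2)} :
      Finset (ZMod N ⊕ ZMod N)) ⊆ P := by
    intro v hv
    simp only [mem_insert, mem_singleton] at hv
    rcases hv with rfl | rfl | rfl | rfl | rfl | rfl <;> assumption
  have h7 := card_le_card h6
  have n1 : c - 2 ≠ c - 1 := (shift_ne hN (k := 1) (by omega) (by omega) (by push_cast; ring)).symm
  have n2 : c - 2 ≠ c := (shift_ne hN (k := 2) (by omega) (by omega) (by push_cast; ring)).symm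
  have n3 : c - 2 ≠ c + 1 := (shift_ne hN (k := 3) (by omega) (by omega) (by push_cast; ring)).symm
  have n4 : c - 1 ≠ c := (shift_ne hN (k := 1) (by omega) (by omega) (by push_cast; ring)).symm
  have n5 : c - 1 ≠ c + 1 := (shift_ne hN (k := 2) (by omega) (by omega) (by push_cast; ring)).symm
  have n6 : c ≠ c + 1 := (shift_ne hN (k := 1) (by omega) (by omega) (by push_cast; ring)).symm
  have n7 : d + 1 ≠ d + 2 := (shift_ne hN (k := 1) (by omega) (by omega) (by push_cast; ring)).symm
  rw [card_insert_of_notMem, card_insert_of_notMem, card_insert_of_notMem, card_insert_of_notMem,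
    card_insert_of_notMem, card_singleton, h5] at h7
  · omega
  · simp only [mem_singleton, Sum.inr.injEq]
    exact n7
  · simp
  · simp only [mem_insert, mem_singleton, Sum.inl.injEq, reduceCtorEq, or_false]
    exact n6
  · simp only [mem_insert, mem_singleton, Sum.inl.injEq, reduceCtorEq, or_false, not_or]
    exact ⟨n4, n5⟩
  · simp only [mem_insert, mem_singleton, Sum.inl.injEq, reduceCtorEq, or_false, not_or]
    exact ⟨n1, n2, n3⟩

end five

end Pool.Agent.Helper19.RG
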