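import Pool.Agent.Helper64.M7.Five

/-!
A cut through an inner spoke gives a free side with seven vertices. (Problem MP_d067c8_co.)
-/

namespace Pool.Agent.Helper19.RG

open Finset Pool.Agent.Helper19.CF

section free

variable {N : ℕ} [NeZero N] {f f' : Equiv.Perm (ZMod N)} {c d : ZMod N}

/-- The star is the only crossing spoke of the frame. -/
theorem M7.cross (hN : 9 ≤ N) (h : M7 f c d) {x : ZMod N}
    (hx : ¬ ((.inl x : ZMod N ⊕ ZMod N) ∈ m7 c d ↔ (.inr (f x) : ZMod N ⊕ ZMod N) ∈ m7 c d)) :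
    x = c := by
  rw [mem_m7_l hN, mem_m7_r hN] at hx
  by_contra hne
  apply hx
  constructor
  · rintro (h1 | h1 | h1 | h1)
    · rw [h1, h.a]
      tauto
    · rw [h1, h.b]
      tauto
    · exact absurd h1 hne
    · rw [h1, h.g]
      tauto
  · rintro (h1 | h1 | h1)
    · rw [← h.b] at h1
      have := f.injective h1
      tauto
    · rw [← h.g] at h1
      have := f.injective h1
      tauto
    · rw [← h.a] at h1
      have := f.injective h1
      tauto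

theorem im_compl (φ : permGraph N f ≃g permGraph N f') (Y : Finset (ZMod N ⊕ ZMod N)) :
    im φ Yᶜ = (im φ Y)ᶜ := by
  ext v
  rw [mem_compl, mem_im', mem_im', mem_compl]

theorem im_inter (φ : permGraph N f ≃g permGraph N f') (Y Z : Finset (ZMod N ⊕ ZMod N)) :
    im φ (Y ∩ Z) = im φ Y ∩ im φ Z := by
  ext v
  rw [mem_inter, mem_im', mem_im', mem_im', mem_inter]

omit [NeZero N] in
theorem im_card (φ : permGraph N f ≃g permGraph N f') (Y : Finset (ZMod N ⊕ ZMod N)) :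
    (im φ Y).card = Y.card := card_map _

theorem im_cutSize (φ : permGraph N f ≃g permGraph N f') (Y : Finset (ZMod N ⊕ ZMod N)) :
    cutSize (permGraph N f') ((im φ Y : Finset (ZMod N ⊕ ZMod N)) : Set (ZMod N ⊕ ZMod N)) =
      cutSize (permGraph N f) (Y : Set (ZMod N ⊕ ZMod N)) := by
  rw [← cutSize_iso φ]
  congr 1
  ext v
  rw [Finset.mem_coe, mem_im']
  constructor
  · intro hv
    exact ⟨_, hv, φ.apply_symm_apply v⟩
  · rintro ⟨w, hw, rfl⟩
    rw [φ.symm_apply_apply]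
    exact hw

/-- A free frame from a side with seven vertices whose star is inner. -/
theorem free_of_frame (hb : Bad f) {S Z : Finset (ZMod N ⊕ ZMod N)} (s : Sym f f')
    (hm : M7 f' c d) (hZ : im s.φ Z = m7 c d) {x : ZMod N} (hx : Inner f S x)
    (hc : ¬ ((.inl x : ZMod N ⊕ ZMod N) ∈ Z ↔ (.inr (f x) : ZMod N ⊕ ZMod N) ∈ Z))
    (h5 : Z ⊆ S ∨ ((Z ∩ S).card = 5 ∧
      cutSize (permGraph N f) ((Z ∩ S : Finset (ZMod N ⊕ ZMod N)) :
        Set (ZMod N ⊕ ZMod N)) = 5)) :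
    Free f' (im s.φ S) c d ∧
      (s.φ (.inl x) = .inl c ∨ s.φ (.inr (f x)) = .inl c) := by
  have hN := hb.hN
  have hb' : Bad f' := hb.iso s.φ
  have hcross : ¬ (s.φ (.inl x) ∈ m7 c d ↔ s.φ (.inr (f x)) ∈ m7 c d) := by
    rw [← hZ, mem_im, mem_im]
    exact hc
  have hsp : spk f' (s.φ (.inl x)) (s.φ (.inr (f x))) := (s.sp _ _).mp (show f x = f x from rfl)
  have hl : s.φ (.inl x) ∈ im s.φ S := (mem_im _ _ _).mpr hx.1
  have hr : s.φ (.inr (f x)) ∈ im s.φ S := (mem_im _ _ _).mpr hx.2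
  -- the star
  have hstar : Inner f' (im s.φ S) c ∧ (s.φ (.inl x) = .inl c ∨ s.φ (.inr (f x)) = .inl c) := by
    rcases h1 : s.φ (.inl x) with u | u <;> rcases h2 : s.φ (.inr (f x)) with v | v <;>
      rw [h1, h2] at hsp hcross <;> rw [h1] at hl <;> rw [h2] at hr
    · exact absurd hsp (by simp [spk])
    · have h3 : f' u = v := hsp
      rw [← h3] at hcross hr
      have h4 := hm.cross hN hcross
      rw [h4] at hl hr
      exact ⟨⟨hl, hr⟩, Or.inl (by rw [h4])⟩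
    · have h3 : f' v = u := hsp
      rw [← h3] at hcross hl
      have h4 := hm.cross hN (fun h5 => hcross h5.symm)
      rw [h4] at hl hr
      exact ⟨⟨hr, hl⟩, Or.inr (by rw [h4])⟩
    · exact absurd hsp (by simp [spk])
  refine ⟨?_, hstar.2⟩
  have key : (.inl (c - 1) : ZMod N ⊕ ZMod N) ∈ im s.φ S ∧
      (.inr d : ZMod N ⊕ ZMod N) ∈ im s.φ S ∧ (.inl (c + 1) : ZMod N ⊕ ZMod N) ∈ im s.φ S ∧
      (.inr (d + 1) : ZMod N ⊕ ZMod N) ∈ im s.φ S := by
    rcases h5 with h5 | ⟨h5, h6⟩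
    · have h7 : m7 c d ⊆ im s.φ S := by
        rw [← hZ]
        exact map_subset_map.mpr h5
      refine ⟨h7 ?_, h7 ?_, h7 ?_, h7 ?_⟩
      · rw [mem_m7_l hN]; tauto
      · rw [mem_m7_r hN]; tauto
      · rw [mem_m7_l hN]; tauto
      · rw [mem_m7_r hN]; tauto
    · have h7 : im s.φ (Z ∩ S) = m7 c d ∩ im s.φ S := by rw [im_inter, hZ]
      have h8 := M7.five hb' hm (P := im s.φ (Z ∩ S)) (by rw [h7]; exact inter_subset_left)
        (by rw [im_card]; exact h5) (by rw [im_cutSize]; exact h6)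
        (by rw [h7, mem_inter, mem_m7_l hN]; exact ⟨by tauto, hstar.1.1⟩)
      rw [h7] at h8
      exact ⟨(mem_inter.mp h8.1).2, (mem_inter.mp h8.2.1).2, (mem_inter.mp h8.2.2.1).2,
        (mem_inter.mp h8.2.2.2).2⟩
  refine ⟨hm, hstar.1, ⟨key.1, ?_⟩, ⟨key.2.2.1, ?_⟩⟩
  · rw [hm.b]
    exact key.2.1
  · rw [hm.g]
    exact key.2.2.2

/-- Every cut through an inner spoke of `S` gives a free frame; the frame theorem and the
uncrossing lemma are hypotheses. -/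
theorem exists_free_of (hb : Bad f)
    (hframe : ∀ {Y : Finset (ZMod N ⊕ ZMod N)}, Side f Y → Y.card = 7 →
      ∃ (f' : Equiv.Perm (ZMod N)) (s : Sym f f') (c d : ZMod N), M7 f' c d ∧
        im s.φ Y = m7 c d)
    {S Y : Finset (ZMod N ⊕ ZMod N)} {x : ZMod N}
    (hlem : ∃ Z, (Z = Y ∨ Z = Yᶜ) ∧ Z.card = 7 ∧
      (Z ⊆ S ∨ ((Z ∩ S).card = 5 ∧ cutSize (permGraph N f)
        ((Z ∩ S : Finset (ZMod N ⊕ ZMod N)) : Set (ZMod N ⊕ ZMod N)) = 5)))
    (hY : Side f Y) (hx : Inner f S x)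
    (hc : ¬ ((.inl x : ZMod N ⊕ ZMod N) ∈ Y ↔ (.inr (f x) : ZMod N ⊕ ZMod N) ∈ Y)) :
    ∃ (f' : Equiv.Perm (ZMod N)) (s : Sym f f') (c d : ZMod N), Free f' (im s.φ S) c d ∧
      (im s.φ Y = m7 c d ∨ im s.φ Yᶜ = m7 c d) ∧
      (s.φ (.inl x) = .inl c ∨ s.φ (.inr (f x)) = .inl c) := by
  obtain ⟨Z, hZ, h7, h5⟩ := hlem
  have hZs : Side f Z := by
    rcases hZ with rfl | rfl
    · exact hY
    · exact hY.compl
  have hcZ : ¬ ((.inl x : ZMod N ⊕ ZMod N) ∈ Z ↔ (.inr (f x) : ZMod N ⊕ ZMod N) ∈ Z) := by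
    rcases hZ with rfl | rfl
    · exact hc
    · rw [mem_compl, mem_compl, not_iff_not]
      exact hc
  obtain ⟨f', s, c, d, hm, him⟩ := hframe hZs h7
  have h8 := free_of_frame hb s hm him hx hcZ h5
  refine ⟨f', s, c, d, h8.1, ?_, h8.2⟩
  rcases hZ with rfl | rfl
  · exact Or.inl him
  · exact Or.inr him

end free

end Pool.Agent.Helper19.RG
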